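import Pool.Agent.Helper17.RZ.St1

/-!
# Project RZ, module A5: an unramified form is isotropic modulo its coefficients
-/

set_option autoImplicit false

open Polynomial

namespace Pool.Agent.Helper90.RZ

open Pool.Agent.Helper17.RZ

universe u

section Basic

variable {F : Type u} [Field F] (V : ZVal F)

lemma v_one : V.v 1 = 0 := by
  have h := V.mul' 1 1 one_ne_zero one_ne_zero
  rw [mul_one] at h
  omega

lemma v_neg_one : V.v (-1) = 0 := by
  have h := V.mul' (-1) (-1) (neg_ne_zero.mpr one_ne_zero) (neg_ne_zero.mpr one_ne_zero)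
  rw [neg_mul_neg, mul_one, v_one] at h
  omega

lemma v_neg (x : F) (hx : x ≠ 0) : V.v (-x) = V.v x := by
  have h := V.mul' (-1) x (neg_ne_zero.mpr one_ne_zero) hx
  rw [v_neg_one, neg_one_mul, zero_add] at h
  exact h

lemma v_sq (x : F) (hx : x ≠ 0) : V.v (x ^ 2) = 2 * V.v x := by
  rw [pow_two, V.mul' x x hx hx]; ring

lemma v_mul_sq (a x : F) (ha : a ≠ 0) (hx : x ≠ 0) : V.v (a * x ^ 2) = V.v a + 2 * V.v x := by
  rw [V.mul' a (x ^ 2) ha (pow_ne_zero 2 hx), v_sq V x hx]

lemma v_inv (x : F) (hx : x ≠ 0) : V.v x⁻¹ = - V.v x := by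
  have h := V.mul' x x⁻¹ hx (inv_ne_zero hx)
  rw [mul_inv_cancel₀ hx, v_one] at h
  omega

lemma v_add_lt (x y : F) (hx : x ≠ 0) (hy : y ≠ 0) (h : V.v x < V.v y) :
    x + y ≠ 0 ∧ V.v (x + y) = V.v x := by
  have h0 : x + y ≠ 0 := by
    intro h0
    have : y = -x := by linear_combination h0
    rw [this, v_neg V x hx] at h
    exact lt_irrefl _ h
  refine ⟨h0, le_antisymm ?_ ?_⟩
  · have h1 := V.add' (x + y) (-y) h0 (neg_ne_zero.mpr hy) (by simpa using hx)
    rw [v_neg V y hy, add_neg_cancel_right] at h1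
    rcases min_le_iff.mp h1 with h2 | h2
    · exact h2
    · omega
  · have h1 := V.add' x y hx hy h0
    rw [min_eq_left h.le] at h1
    exact h1

lemma v_add_lt' (x y : F) (hx : x ≠ 0) (hy : y ≠ 0) (h : V.v y < V.v x) :
    x + y ≠ 0 ∧ V.v (x + y) = V.v y := by
  rw [add_comm x y]
  exact v_add_lt V y x hy hx h

variable {V}

lemma Ge_add {n : ℤ} {x y : F} (hx : V.Ge n x) (hy : V.Ge n y) : V.Ge n (x + y) := by
  rcases hx with rfl | hx
  · rw [zero_add]; exact hy
  rcases hy with rfl | hy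
  · rw [add_zero]; exact Or.inr hx
  by_cases h0 : x + y = 0
  · exact Or.inl h0
  by_cases hx0 : x = 0
  · rw [hx0, zero_add]; exact Or.inr hy
  by_cases hy0 : y = 0
  · rw [hy0, add_zero]; exact Or.inr hx
  exact Or.inr ((le_min hx hy).trans (V.add' x y hx0 hy0 h0))

lemma Ge_neg {n : ℤ} {x : F} (hx : V.Ge n x) : V.Ge n (-x) := by
  by_cases hx0 : x = 0
  · left; rw [hx0, neg_zero]
  rcases hx with h | hx
  · exact absurd h hx0
  · right; rw [v_neg V x hx0]; exact hx

lemma Ge_sub {n : ℤ} {x y : F} (hx : V.Ge n x) (hy : V.Ge n y) : V.Ge n (x - y) := by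
  rw [sub_eq_add_neg]; exact Ge_add hx (Ge_neg hy)

lemma Ge_mul {n m : ℤ} {x y : F} (hx : V.Ge n x) (hy : V.Ge m y) : V.Ge (n + m) (x * y) := by
  by_cases hx0 : x = 0
  · left; rw [hx0, zero_mul]
  by_cases hy0 : y = 0
  · left; rw [hy0, mul_zero]
  rcases hx with h | hx
  · exact absurd h hx0
  rcases hy with h | hy
  · exact absurd h hy0
  right; rw [V.mul' x y hx0 hy0]; omega

end Basic

lemma pr_ne {F : Type u} [Field F] {P : F[X]} (hP : P ≠ 0) : pr P ≠ 0 := by
  intro h
  exact hP ((map_eq_zero_iff _ (IsFractionRing.injective F[X] (RatFunc F))).mp h)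

/-- a form without zeros modulo `p` is ramified at `p` -/
lemma ram_of_local {F : Type u} [Field F] (A B C p : F[X]) (hA : A ≠ 0) (hB : B ≠ 0) (hC : C ≠ 0)
    (hp : Irreducible p) (hpC : p ∣ C) (hsq : Squarefree C) (hAC : IsCoprime A C)
    (hBC : IsCoprime B C) (V : ZVal (RatFunc F)) (h1 : ∀ P : F[X], P ≠ 0 → 0 ≤ V.v (pr P))
    (h2 : ∀ P : F[X], P ≠ 0 → ∀ n : ℕ, ((n : ℤ) ≤ V.v (pr P) ↔ p ^ n ∣ P))
    (h3 : ∀ u : RatFunc F, u ≠ 0 → 0 ≤ V.v u → ∃ l : F[X], V.Ge 1 (u - pr l))
    (hno : ∀ l : F[X], ¬ p ∣ A * l ^ 2 + B) : Ram V (dg (pr A) (pr B) (pr C)) := by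
  have hnd : ∀ P : F[X], IsCoprime P C → ¬ p ∣ P := by
    intro P hPC hd
    exact hp.not_isUnit (hPC.isUnit_of_dvd' hd hpC)
  have hunit : ∀ P : F[X], P ≠ 0 → IsCoprime P C → V.v (pr P) = 0 := by
    intro P hP hPC
    have e1 := h1 P hP
    have e2 := (h2 P hP 1).not.mpr (by rw [pow_one]; exact hnd P hPC)
    push_cast at e2
    omega
  have vA : V.v (pr A) = 0 := hunit A hA hAC
  have vB : V.v (pr B) = 0 := hunit B hB hBC
  have vC : V.v (pr C) = 1 := by
    have e1 := (h2 C hC 1).mpr (by rw [pow_one]; exact hpC)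
    have e2 := (h2 C hC 2).not.mpr (by
      intro hd
      rw [pow_two] at hd
      exact hp.not_isUnit (hsq p hd))
    push_cast at e1 e2
    omega
  have hA' : pr A ≠ 0 := pr_ne hA
  have hB' : pr B ≠ 0 := pr_ne hB
  have hC' : pr C ≠ 0 := pr_ne hC
  -- the binary part
  have key : ∀ x y : RatFunc F, (x ≠ 0 ∨ y ≠ 0) →
      pr A * x ^ 2 + pr B * y ^ 2 ≠ 0 ∧ (2 : ℤ) ∣ V.v (pr A * x ^ 2 + pr B * y ^ 2) ∧
      (x ≠ 0 → V.v (pr A * x ^ 2 + pr B * y ^ 2) ≤ 2 * V.v x) ∧
      (y ≠ 0 → V.v (pr A * x ^ 2 + pr B * y ^ 2) ≤ 2 * V.v y) := by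
    intro x y hxy
    by_cases hx : x = 0
    · have hy : y ≠ 0 := hxy.resolve_left (fun h => h hx)
      have e : pr A * x ^ 2 + pr B * y ^ 2 = pr B * y ^ 2 := by rw [hx]; ring
      have ev := v_mul_sq V (pr B) y hB' hy
      rw [vB, zero_add] at ev
      rw [e, ev]
      exact ⟨mul_ne_zero hB' (pow_ne_zero 2 hy), ⟨_, rfl⟩, fun h => absurd hx h, fun _ => le_rfl⟩
    by_cases hy : y = 0
    · have e : pr A * x ^ 2 + pr B * y ^ 2 = pr A * x ^ 2 := by rw [hy]; ring
      have ev := v_mul_sq V (pr A) x hA' hx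
      rw [vA, zero_add] at ev
      rw [e, ev]
      exact ⟨mul_ne_zero hA' (pow_ne_zero 2 hx), ⟨_, rfl⟩, fun _ => le_rfl, fun h => absurd hy h⟩
    have ex := v_mul_sq V (pr A) x hA' hx
    have ey := v_mul_sq V (pr B) y hB' hy
    rw [vA, zero_add] at ex
    rw [vB, zero_add] at ey
    have nx : pr A * x ^ 2 ≠ 0 := mul_ne_zero hA' (pow_ne_zero 2 hx)
    have ny : pr B * y ^ 2 ≠ 0 := mul_ne_zero hB' (pow_ne_zero 2 hy)
    rcases lt_trichotomy (V.v x) (V.v y) with hlt | heq | hgt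
    · obtain ⟨n1, n2⟩ := v_add_lt V _ _ nx ny (by omega)
      rw [n2, ex]
      exact ⟨n1, ⟨_, rfl⟩, fun _ => le_rfl, fun _ => by omega⟩
    · -- equal values
      set u : RatFunc F := x * y⁻¹ with hu
      have hu0 : u ≠ 0 := mul_ne_zero hx (inv_ne_zero hy)
      have vu : V.v u = 0 := by
        rw [hu, V.mul' x y⁻¹ hx (inv_ne_zero hy), v_inv V y hy]; omega
      have efac : pr A * x ^ 2 + pr B * y ^ 2 = (pr A * u ^ 2 + pr B) * y ^ 2 := by
        rw [hu]; field_simp
      have hnot : ¬ V.Ge 1 (pr A * u ^ 2 + pr B) := by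
        intro hge
        obtain ⟨l, hl⟩ := h3 u hu0 vu.ge
        have hl0 : V.Ge 0 (pr l) := by
          by_cases hl' : l = 0
          · left; rw [hl']; exact map_zero (algebraMap F[X] (RatFunc F))
          · right; exact h1 l hl'
        have hu0' : V.Ge 0 u := Or.inr vu.ge
        have hA0 : V.Ge 0 (pr A) := Or.inr vA.ge
        have g1 : V.Ge (0 + (1 + 0)) (pr A * ((u - pr l) * (u + pr l))) :=
          Ge_mul hA0 (Ge_mul hl (Ge_add hu0' hl0))
        have g2 : V.Ge 1 (pr (A * l ^ 2 + B)) := by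
          have e : pr (A * l ^ 2 + B)
              = (pr A * u ^ 2 + pr B) - pr A * ((u - pr l) * (u + pr l)) := by
            simp only [map_add, map_mul, map_pow]; ring
          rw [e]
          exact Ge_sub hge (by simpa using g1)
        by_cases h0 : A * l ^ 2 + B = 0
        · exact hno l (h0 ▸ dvd_zero p)
        rcases g2 with g2 | g2
        · exact pr_ne h0 g2
        · exact hno l (by
            have := (h2 _ h0 1).mp (by rw [Nat.cast_one]; exact g2)
            rwa [pow_one] at this)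
      have hne : pr A * u ^ 2 + pr B ≠ 0 := fun h => hnot (Or.inl h)
      have hval : V.v (pr A * u ^ 2 + pr B) = 0 := by
        have g0 : ¬ (1 : ℤ) ≤ V.v (pr A * u ^ 2 + pr B) := fun h => hnot (Or.inr h)
        have g1 := V.add' (pr A * u ^ 2) (pr B) (mul_ne_zero hA' (pow_ne_zero 2 hu0)) hB' hne
        rw [v_mul_sq V (pr A) u hA' hu0, vA, vB, vu] at g1
        simp only [mul_zero, add_zero, min_self] at g1
        omega
      have ev : V.v (pr A * x ^ 2 + pr B * y ^ 2) = 2 * V.v y := by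
        rw [efac, v_mul_sq V _ y hne hy, hval, zero_add]
      rw [ev]
      refine ⟨?_, ⟨_, rfl⟩, fun _ => by omega, fun _ => le_rfl⟩
      rw [efac]
      exact mul_ne_zero hne (pow_ne_zero 2 hy)
    · obtain ⟨n1, n2⟩ := v_add_lt' V _ _ nx ny (by omega)
      rw [n2, ey]
      exact ⟨n1, ⟨_, rfl⟩, fun _ => by omega, fun _ => le_rfl⟩
  refine ⟨⟨1, ?_⟩, ?_⟩
  · intro x i hi
    unfold dg
    by_cases hz : x 2 = 0
    · have e : pr A * x 0 ^ 2 + pr B * x 1 ^ 2 + pr C * x 2 ^ 2
          = pr A * x 0 ^ 2 + pr B * x 1 ^ 2 := by rw [hz]; ring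
      rw [e]
      have hxy : x 0 ≠ 0 ∨ x 1 ≠ 0 := by
        fin_cases i
        · left; exact hi
        · right; exact hi
        · exact absurd hz hi
      obtain ⟨k1, k2, k3, k4⟩ := key (x 0) (x 1) hxy
      refine ⟨k1, ?_⟩
      fin_cases i
      · have := k3 hi
        simp only [Fin.zero_eta]
        omega
      · have := k4 hi
        simp only [Fin.mk_one]
        omega
      · exact absurd hz hi
    · have ez := v_mul_sq V (pr C) (x 2) hC' hz
      rw [vC] at ez
      have nz : pr C * x 2 ^ 2 ≠ 0 := mul_ne_zero hC' (pow_ne_zero 2 hz)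
      by_cases hxy : x 0 ≠ 0 ∨ x 1 ≠ 0
      · obtain ⟨k1, ⟨m, hm⟩, k3, k4⟩ := key (x 0) (x 1) hxy
        have hfin : ∀ W : ℤ, W ≤ V.v (pr A * x 0 ^ 2 + pr B * x 1 ^ 2) →
            W ≤ V.v (pr C * x 2 ^ 2) → W ≤ 2 * V.v (x i) + 1 := by
          intro W w1 w2
          fin_cases i
          · have := k3 hi
            simp only [Fin.zero_eta]
            omega
          · have := k4 hi
            simp only [Fin.mk_one]
            omega
          · simp only [Fin.reduceFinMk]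
            omega
        rcases lt_trichotomy (V.v (pr A * x 0 ^ 2 + pr B * x 1 ^ 2)) (V.v (pr C * x 2 ^ 2))
          with hlt | heq | hgt
        · obtain ⟨n1, n2⟩ := v_add_lt V _ _ k1 nz hlt
          exact ⟨n1, by rw [n2]; exact hfin _ le_rfl hlt.le⟩
        · exfalso; omega
        · obtain ⟨n1, n2⟩ := v_add_lt' V _ _ k1 nz hgt
          exact ⟨n1, by rw [n2]; exact hfin _ hgt.le le_rfl⟩
      · push Not at hxy
        have e : pr A * x 0 ^ 2 + pr B * x 1 ^ 2 + pr C * x 2 ^ 2 = pr C * x 2 ^ 2 := by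
          rw [hxy.1, hxy.2]; ring
        rw [e, ez]
        refine ⟨nz, ?_⟩
        fin_cases i
        · exact absurd hxy.1 hi
        · exact absurd hxy.2 hi
        · simp only [Fin.reduceFinMk]
          omega
  · refine ⟨![1, 0, 0], ![0, 0, 1], ?_, ?_, ?_⟩
    · simp [dg, hA']
    · simp [dg, hC']
    · have e1 : dg (pr A) (pr B) (pr C) ![1, 0, 0] = pr A := by simp [dg]
      have e2 : dg (pr A) (pr B) (pr C) ![0, 0, 1] = pr C := by simp [dg]
      rw [e1, e2, vA, vC]
      omega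

theorem localSq (hP : Pool.Agent.Helper17.RZ.Padic.{u}) : LocalSq.{u} := by
  intro F _ A B C hA hB hC hsq hAC hBC hun
  have hloc : ∀ p : F[X], Irreducible p → p ∣ C → ∃ l : F[X], p ∣ A * l ^ 2 + B := by
    intro p hp hpC
    by_contra hno
    push Not at hno
    obtain ⟨V, h1, h2, h3⟩ := hP F p hp
    exact hun V (ram_of_local A B C p hA hB hC hp hpC hsq hAC hBC V h1 h2 h3 hno)
  have main : ∀ D : F[X], D ∣ C → ∃ l : F[X], D ∣ A * l ^ 2 + B := by
    intro D
    induction D using WfDvdMonoid.induction_on_irreducible with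
    | zero => intro h; exact absurd (zero_dvd_iff.mp h) hC
    | unit v hv => intro _; exact ⟨0, hv.dvd⟩
    | mul a p ha hp ih =>
      intro hd
      obtain ⟨l, hl⟩ := ih ((Dvd.intro_left p rfl).trans hd)
      obtain ⟨m, hm⟩ := hloc p hp ((Dvd.intro a rfl).trans hd)
      have hnd : ¬ p ∣ a := by
        rintro ⟨c, rfl⟩
        exact hp.not_isUnit (hsq p ((by rw [← mul_assoc]; exact Dvd.intro c rfl : p * p ∣ p * (p * c)).trans hd))
      have hcop : IsCoprime p a := (hp.coprime_iff_not_dvd).mpr hnd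
      obtain ⟨r, s, hrs⟩ := id hcop
      refine ⟨l * (r * p) + m * (s * a), ?_⟩
      refine IsCoprime.mul_dvd hcop ?_ ?_
      · -- modulo p the new value is m
        have e : A * (l * (r * p) + m * (s * a)) ^ 2 + B
            = (A * m ^ 2 + B) + p * (A * (r * (l - m)) * (2 * m + p * (r * (l - m)))) := by
          have hs : s * a = 1 - r * p := by linear_combination hrs
          rw [hs]; ring
        rw [e]
        exact dvd_add hm (Dvd.intro _ rfl)
      · have e : A * (l * (r * p) + m * (s * a)) ^ 2 + B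
            = (A * l ^ 2 + B) + a * (A * (s * (m - l)) * (2 * l + a * (s * (m - l)))) := by
          have hs : r * p = 1 - s * a := by linear_combination hrs
          rw [hs]; ring
        rw [e]
        exact dvd_add hl (Dvd.intro _ rfl)
  exact main C dvd_rfl

end Pool.Agent.Helper90.RZ
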